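import Mathlib

/-! A group ideal whose ballean is normal and which has no linearly ordered base. -/

open Set Filter Topology Pointwise

namespace Pool.Agent.Results.MP_405a2c_gt.Counter

variable {G : Type} [Group G]

/-- `E_A[S]`, where `E_A = {(x, y) : y ∈ A x ∪ {x}}`. -/
def ent (A S : Set G) : Set G := {y | ∃ x ∈ S, y ∈ A * {x} ∪ {x}}

/-- Bounded sets of the ballean `(G, E_I)`. -/
def Bdd (I : Set (Set G)) (B : Set G) : Prop := ∃ A ∈ I, ∃ x : G, B ⊆ ent A {x}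

/-- Asymptotically disjoint sets. -/
def AsympDisj (I : Set (Set G)) (A B : Set G) : Prop := ∀ C ∈ I, Bdd I (ent C A ∩ ent C B)

/-- `U` is an asymptotic neighbourhood of `A`. -/
def AsympNbhd (I : Set (Set G)) (U A : Set G) : Prop := ∀ C ∈ I, Bdd I (ent C A \ U)

/-- The ballean `(G, E_I)` is normal. -/
def Normal (I : Set (Set G)) : Prop :=
  ∀ A B : Set G, AsympDisj I A B →
    ∃ U V : Set G, Disjoint U V ∧ AsympNbhd I U A ∧ AsympNbhd I V B

/-- Group ideals. -/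
def GroupIdeal (I : Set (Set G)) : Prop :=
  (∀ A ∈ I, ∀ B ∈ I, A ∪ B ∈ I) ∧ (∀ A ∈ I, ∀ B ⊆ A, B ∈ I) ∧ univ ∉ I ∧
    (∀ F : Set G, F.Finite → F ∈ I) ∧ ∀ A ∈ I, ∀ B ∈ I, A * B⁻¹ ∈ I

/-- `I` has a base that is a chain under inclusion. -/
def HasLinBase (I : Set (Set G)) : Prop :=
  ∃ 𝔅 ⊆ I, IsChain (· ⊆ ·) 𝔅 ∧ ∀ A ∈ I, ∃ B ∈ 𝔅, A ⊆ B

abbrev H : Type := ℕ → Multiplicative (ZMod 2)

def K : Subgroup H where
  carrier := {x | ∀ᶠ n in (hyperfilter ℕ : Filter ℕ), x n = 1}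
  one_mem' := Eventually.of_forall fun _ => rfl
  mul_mem' := by
    intro a b ha hb
    filter_upwards [ha, hb] with n h1 h2
    simp [h1, h2]
  inv_mem' := by
    intro a ha
    filter_upwards [ha] with n h1
    simp [h1]

lemma two (u v : Multiplicative (ZMod 2)) (hu : u ≠ 1) (hv : v ≠ 1) : u * v⁻¹ = 1 := by
  revert u v; decide

lemma index_two (x y : H) (hx : x ∉ K) (hy : y ∉ K) : x * y⁻¹ ∈ K := by
  have h1 : ∀ᶠ n in (hyperfilter ℕ : Filter ℕ), ¬ x n = 1 := Ultrafilter.eventually_not.mpr hx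
  have h2 : ∀ᶠ n in (hyperfilter ℕ : Filter ℕ), ¬ y n = 1 := Ultrafilter.eventually_not.mpr hy
  show ∀ᶠ n in (hyperfilter ℕ : Filter ℕ), (x * y⁻¹) n = 1
  filter_upwards [h1, h2] with n h3 h4
  exact two _ _ h3 h4

/-- truncation -/
def tr (N : ℕ) (x : H) : H := fun n => if n < N then x n else 1

lemma tr_mem (N : ℕ) (x : H) : tr N x ∈ K := by
  show ∀ᶠ n in (hyperfilter ℕ : Filter ℕ), tr N x n = 1
  have : ∀ᶠ n in cofinite, tr N x n = 1 := by
    rw [Nat.cofinite_eq_atTop]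
    filter_upwards [eventually_ge_atTop N] with n hn
    simp [tr, not_lt.mpr hn]
  exact this.filter_mono hyperfilter_le_cofinite

lemma tr_tendsto (x : H) : Tendsto (fun N => tr N x) atTop (𝓝 x) := by
  rw [tendsto_pi_nhds]
  intro n
  apply tendsto_const_nhds.congr'
  filter_upwards [eventually_gt_atTop n] with N hN
  simp [tr, hN]

def w : H := fun _ => Multiplicative.ofAdd 1

lemma w_not : w ∉ K := by
  intro h
  have h' : ∀ᶠ n in (hyperfilter ℕ : Filter ℕ), w n = 1 := h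
  obtain ⟨n, hn⟩ := h'.exists
  revert hn
  simp only [w]
  decide

lemma K_dense : Dense (K : Set H) := fun x =>
  mem_closure_of_tendsto (tr_tendsto x) (Eventually.of_forall fun N => tr_mem N x)

lemma Kc_dense : Dense (K : Set H)ᶜ := by
  intro x
  have h1 : Tendsto (fun N => tr N (x * w⁻¹) * w) atTop (𝓝 (x * w⁻¹ * w)) :=
    (tr_tendsto _).mul_const w
  rw [inv_mul_cancel_right] at h1
  refine mem_closure_of_tendsto h1 (Eventually.of_forall fun N h => w_not ?_)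
  exact (K.mul_mem_cancel_left (tr_mem N _)).mp h

/-- The ideal of subsets of `K` whose closure in `H` lies in `K`. -/
def I : Set (Set K) := {A | closure (Subtype.val '' A) ⊆ (K : Set H)}

lemma I_mono {A B : Set K} (hA : A ∈ I) (h : B ⊆ A) : B ∈ I :=
  (closure_mono (image_mono h)).trans hA

lemma I_union {A B : Set K} (hA : A ∈ I) (hB : B ∈ I) : A ∪ B ∈ I := by
  show closure (Subtype.val '' (A ∪ B)) ⊆ (K : Set H)
  rw [image_union, closure_union]
  exact union_subset hA hB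

lemma I_fin {F : Set K} (hF : F.Finite) : F ∈ I := by
  show closure (Subtype.val '' F) ⊆ (K : Set H)
  rw [(hF.image _).isClosed.closure_eq]
  rintro _ ⟨x, -, rfl⟩
  exact x.2

lemma I_mul {A B : Set K} (hA : A ∈ I) (hB : B ∈ I) : A * B⁻¹ ∈ I := by
  have h1 : IsCompact (closure (Subtype.val '' A) * (closure (Subtype.val '' B))⁻¹) :=
    isClosed_closure.isCompact.mul isClosed_closure.isCompact.inv
  have h2 : Subtype.val '' (A * B⁻¹) ⊆
      closure (Subtype.val '' A) * (closure (Subtype.val '' B))⁻¹ := by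
    rintro _ ⟨_, ⟨a, ha, b, hb, rfl⟩, rfl⟩
    refine ⟨a, subset_closure ⟨a, ha, rfl⟩, b, ?_, rfl⟩
    rw [Set.mem_inv]
    exact subset_closure ⟨b⁻¹, hb, rfl⟩
  refine (closure_minimal h2 h1.isClosed).trans ?_
  rintro _ ⟨a, ha, b, hb, rfl⟩
  exact K.mul_mem (hA ha) (K.inv_mem_iff.mp (hB hb))

lemma I_dense {A : Set K} (h : Dense (Subtype.val '' A : Set H)) : A ∉ I := by
  intro hA
  exact w_not (hA (h w))

lemma ent_mem {C A : Set K} (hC : C ∈ I) (hA : A ∈ I) : ent C A ∈ I := by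
  have h1 : A⁻¹ ∈ I := by
    have := I_mul (I_fin (finite_singleton 1)) hA
    simpa using this
  have h2 := I_mul hC h1
  rw [inv_inv] at h2
  refine I_mono (I_union h2 hA) ?_
  rintro y ⟨x, hx, h | h⟩
  · left
    obtain ⟨c, hc, u, hu, rfl⟩ := h
    rw [mem_singleton_iff.mp hu]
    exact ⟨c, hc, x, hx, rfl⟩
  · right
    rw [mem_singleton_iff.mp h]; exact hx

lemma bdd_iff (B : Set K) : Bdd I B ↔ B ∈ I := by
  constructor
  · rintro ⟨A, hA, x, h⟩
    exact I_mono (ent_mem hA (I_fin (finite_singleton x))) h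
  · intro h
    refine ⟨B, h, 1, fun y hy => ⟨1, rfl, Or.inl ?_⟩⟩
    simpa using hy

lemma exists_seq {A : Set K} (hA : A ∉ I) :
    ∃ α ∉ K, ∃ a : ℕ → K, (∀ n, a n ∈ A) ∧ Tendsto (fun n => (a n : H)) atTop (𝓝 α) := by
  obtain ⟨α, h1, h2⟩ := not_subset.mp hA
  obtain ⟨u, hu, hl⟩ := mem_closure_iff_seq_limit.mp h1
  choose a ha hau using hu
  refine ⟨α, h2, a, ha, ?_⟩
  simpa only [hau] using hl

lemma ultra {A B : Set K} (hA : A ∉ I) (hB : B ∉ I) : ¬ AsympDisj I A B := by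
  obtain ⟨α, hα, a, ha, hal⟩ := exists_seq hA
  obtain ⟨β, hβ, b, hb, hbl⟩ := exists_seq hB
  intro h
  have hl : Tendsto (fun n => (a n : H) * (b n : H)⁻¹) atTop (𝓝 (α * β⁻¹)) := hal.mul hbl.inv
  have hC : range (fun n => a n * (b n)⁻¹) ∈ I := by
    have h1 := hl.isCompact_insert_range
    have h2 : Subtype.val '' range (fun n => a n * (b n)⁻¹) ⊆
        insert (α * β⁻¹) (range fun n => (a n : H) * (b n : H)⁻¹) := by
      rintro _ ⟨_, ⟨n, rfl⟩, rfl⟩
      exact Or.inr ⟨n, rfl⟩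
    refine (closure_minimal h2 h1.isClosed).trans ?_
    rintro y (rfl | ⟨n, rfl⟩)
    · exact index_two _ _ hα hβ
    · exact K.mul_mem (a n).2 (K.inv_mem (b n).2)
  have h3 := (bdd_iff _).mp (h _ hC)
  apply hα
  apply h3
  refine mem_closure_of_tendsto hal (Eventually.of_forall fun n => ⟨a n, ⟨?_, ?_⟩, rfl⟩)
  · exact ⟨a n, ha n, Or.inr rfl⟩
  · exact ⟨b n, hb n, Or.inl ⟨_, ⟨n, rfl⟩, b n, rfl, by simp⟩⟩

lemma normal : Normal I := by
  intro A B h
  by_cases hA : A ∈ I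
  · refine ⟨∅, univ, by simp, fun C hC => ?_, fun C _ => ?_⟩
    · rw [bdd_iff, Set.sdiff_empty]; exact ent_mem hC hA
    · rw [bdd_iff, Set.sdiff_univ]; exact I_fin finite_empty
  by_cases hB : B ∈ I
  · refine ⟨univ, ∅, by simp, fun C _ => ?_, fun C hC => ?_⟩
    · rw [bdd_iff, Set.sdiff_univ]; exact I_fin finite_empty
    · rw [bdd_iff, Set.sdiff_empty]; exact ent_mem hC hB
  exact absurd h (ultra hA hB)

lemma no_base : ¬ HasLinBase I := by
  rintro ⟨𝔅, h𝔅, hch, hb⟩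
  obtain ⟨D, hDK, hDc, hDd⟩ := K_dense.exists_countable_dense_subset
  have : Countable D := hDc.to_subtype
  have h1 : ∀ d : D, ∃ B ∈ 𝔅, (⟨d.1, hDK d.2⟩ : K) ∈ B := by
    intro d
    obtain ⟨B, hB, h⟩ := hb _ (I_fin (finite_singleton (⟨d.1, hDK d.2⟩ : K)))
    exact ⟨B, hB, h rfl⟩
  choose B hB hdB using h1
  have h2 : ∀ x : K, ∃ d, x ∈ B d := by
    intro x
    obtain ⟨C, hC, h⟩ := hb _ (I_fin (finite_singleton x))
    by_contra hn
    push Not at hn
    apply I_dense (A := C) _ (h𝔅 hC)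
    refine hDd.mono fun y hy => ?_
    rcases hch.total hC (hB ⟨y, hy⟩) with h3 | h3
    · exact absurd (h3 (h rfl)) (hn _)
    · exact ⟨_, h3 (hdB ⟨y, hy⟩), rfl⟩
  let F : D × Bool → Set H := fun p =>
    if p.2 then closure (Subtype.val '' B p.1)
    else (fun y => y * w⁻¹) ⁻¹' closure (Subtype.val '' B p.1)
  have hcl : ∀ p, IsClosed (F p) := by
    rintro ⟨d, _ | _⟩
    · exact isClosed_closure.preimage (by fun_prop)
    · exact isClosed_closure
  have hun : ⋃ p, F p = univ := by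
    rw [eq_univ_iff_forall]
    intro y
    by_cases hy : y ∈ K
    · obtain ⟨d, hd⟩ := h2 ⟨y, hy⟩
      exact mem_iUnion.mpr ⟨(d, true), subset_closure ⟨_, hd, rfl⟩⟩
    · obtain ⟨d, hd⟩ := h2 ⟨y * w⁻¹, index_two _ _ hy w_not⟩
      exact mem_iUnion.mpr ⟨(d, false), subset_closure (s := Subtype.val '' B d) ⟨_, hd, rfl⟩⟩
  obtain ⟨⟨d, t⟩, hne⟩ := nonempty_interior_of_iUnion_of_closed hcl hun
  cases t
  · obtain ⟨y, hy1, hy2⟩ := K_dense.inter_open_nonempty _ isOpen_interior hne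
    have h4 : y ∈ F (d, false) := interior_subset hy1
    have h3 : y * w⁻¹ ∈ K := h𝔅 (hB d) h4
    exact w_not (K.inv_mem_iff.mp ((K.mul_mem_cancel_left hy2).mp h3))
  · obtain ⟨y, hy1, hy2⟩ := Kc_dense.inter_open_nonempty _ isOpen_interior hne
    exact hy2 (h𝔅 (hB d) (interior_subset hy1))

theorem result : ∃ (G : Type) (_ : Group G) (I : Set (Set G)),
    GroupIdeal I ∧ Normal I ∧ ¬ HasLinBase I := by
  refine ⟨K, inferInstance, I, ⟨fun _ hA _ hB => I_union hA hB, fun _ hA _ h => I_mono hA h, ?_,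
    fun _ => I_fin, fun _ hA _ hB => I_mul hA hB⟩, normal, no_base⟩
  apply I_dense
  simpa using K_dense

end Pool.Agent.Results.MP_405a2c_gt.Counter
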